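import Pool.Agent.Y803.SEL.Stm

/-! Project SEL: fixed vectors of `p`-groups. -/

set_option autoImplicit false

namespace Pool.Agent.Y655.SEL.Fix

open Pool.Agent.Y803.SEL

theorem t : S_FIX := by
  intro p hp Γ _ M _ _ _ r D N s hN hidx hD x hx
  by_contra hx0
  -- the vectors fixed by `D ∩ N`
  set W : AddSubgroup M :=
    { carrier := {y | ∀ φ ∈ D, φ ∈ N → r φ y = y}
      add_mem' := fun {a b} ha hb φ h1 h2 => by rw [map_add, ha φ h1 h2, hb φ h1 h2]
      zero_mem' := fun φ _ _ => map_zero _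
      neg_mem' := fun {a} ha φ h1 h2 => by rw [map_neg, ha φ h1 h2] } with hW
  have hmemW : ∀ y : M, y ∈ W ↔ ∀ φ ∈ D, φ ∈ N → r φ y = y := fun y => Iff.rfl
  have hact : ∀ φ ∈ D, ∀ y ∈ W, r φ y ∈ W := by
    intro φ hφ y hy ψ h1 h2
    have h3 : φ⁻¹ * ψ * φ ∈ D := D.mul_mem (D.mul_mem (D.inv_mem hφ) h1) hφ
    have h4 : φ⁻¹ * ψ * φ ∈ N := by
      have := hN.conj_mem ψ h2 φ⁻¹
      rwa [inv_inv] at this
    have h5 := hy _ h3 h4
    rw [← Module.End.mul_apply, ← map_mul, show ψ * φ = φ * (φ⁻¹ * ψ * φ) by group, map_mul,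
      Module.End.mul_apply, h5]
  let act : MulAction D W :=
    { smul := fun φ y => ⟨r (φ : Γ) y, hact φ φ.2 y y.2⟩
      one_smul := fun y => by
        apply Subtype.ext
        show r ((1 : D) : Γ) (y : M) = y
        rw [Subgroup.coe_one, map_one, Module.End.one_apply]
      mul_smul := fun φ ψ y => by
        apply Subtype.ext
        show r ((φ * ψ : D) : Γ) (y : M) = r (φ : Γ) (r (ψ : Γ) (y : M))
        rw [Subgroup.coe_mul, map_mul, Module.End.mul_apply] }
  have hsm : ∀ (φ : D) (y : W), ((φ • y : W) : M) = r (φ : Γ) (y : M) := fun _ _ => rfl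
  set P : Subgroup (Equiv.Perm W) := (MulAction.toPermHom D W).range with hP
  have hpg : IsPGroup p P := by
    rintro ⟨_, φ, rfl⟩
    refine ⟨s, ?_⟩
    apply Subtype.ext
    show (MulAction.toPermHom D W φ) ^ p ^ s = 1
    rw [← map_pow]
    apply Equiv.ext
    intro y
    show (φ ^ p ^ s) • y = y
    apply Subtype.ext
    rw [hsm]
    refine y.2 _ (φ ^ p ^ s).2 ?_
    have h1 := N.pow_index_mem (φ : Γ)
    rw [hidx] at h1
    exact h1
  have hxW : x ∈ W := hx
  have : Finite W := Subtype.finite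
  have hdvd : p ∣ Nat.card W := by
    have h1 : addOrderOf (⟨x, hxW⟩ : W) = p := by
      apply addOrderOf_eq_prime
      · apply Subtype.ext
        show p • x = 0
        rw [← Nat.cast_smul_eq_nsmul (ZMod p), ZMod.natCast_self, zero_smul]
      · intro h
        exact hx0 (congrArg Subtype.val h)
    rw [← h1]
    exact addOrderOf_dvd_natCard _
  have hz : (0 : W) ∈ MulAction.fixedPoints P W := by
    rintro ⟨_, φ, rfl⟩
    show φ • (0 : W) = 0
    apply Subtype.ext
    rw [hsm]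
    exact map_zero _
  obtain ⟨b, hb, hb0⟩ := hpg.exists_fixed_point_of_prime_dvd_card_of_fixed_point W hdvd hz
  apply hb0
  apply Subtype.ext
  show (0 : M) = b
  symm
  apply hD
  intro φ hφ
  have h1 := hb ⟨MulAction.toPermHom D W ⟨φ, hφ⟩, ⟨φ, hφ⟩, rfl⟩
  have h2 : (⟨φ, hφ⟩ : D) • b = b := h1
  have h3 := congrArg Subtype.val h2
  rwa [hsm] at h3

end Pool.Agent.Y655.SEL.Fix
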