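import Pool.Agent.Y803.SEL.Stm

/-! Project SEL: chains of subgroups of index `p`. -/

set_option autoImplicit false

namespace Pool.Agent.Y655.SEL.Tow

open Pool.Agent.Y803.SEL

theorem t : S_TOW := by
  intro p hp Γ _ N s hN hidx Pr h0 hstep
  have key : ∀ (j k : ℕ) (H : Subgroup Γ), N ≤ H → N.relIndex H = p ^ j → Pr k H →
      Pr (k + j) N := by
    intro j
    induction j with
    | zero =>
      intro k H hNH hrel hPr
      rw [pow_zero, Subgroup.relIndex_eq_one] at hrel
      rw [le_antisymm hNH hrel]
      exact hPr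
    | succ j ih =>
      intro k H hNH hrel hPr
      have hNn : (N.subgroupOf H).Normal := hN.subgroupOf H
      have hcard : Nat.card (H ⧸ N.subgroupOf H) = p ^ (j + 1) := hrel
      have : Finite (H ⧸ N.subgroupOf H) := by
        apply Nat.finite_of_card_ne_zero
        rw [hcard]
        exact pow_ne_zero _ hp.out.ne_zero
      obtain ⟨K, hK⟩ := Sylow.exists_subgroup_card_pow_prime p (n := j)
        (G := H ⧸ N.subgroupOf H) (by rw [hcard]; exact pow_dvd_pow p (Nat.le_succ j))
      have hKi : K.index = p := by
        have h1 := K.card_mul_index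
        rw [hcard, hK, pow_succ] at h1
        exact Nat.eq_of_mul_eq_mul_left (pow_pos hp.out.pos j) h1
      have hKn : K.Normal := by
        apply Subgroup.normal_of_index_eq_minFac_card
        rw [hKi, hcard, hp.out.pow_minFac (Nat.succ_ne_zero j)]
      set K' : Subgroup H := K.comap (QuotientGroup.mk' (N.subgroupOf H)) with hK'
      have hK'n : K'.Normal := hKn.comap _
      have hK'i : K'.index = p := by
        rw [hK', Subgroup.index_comap_of_surjective _ (QuotientGroup.mk'_surjective _), hKi]
      have hsub : (K'.map H.subtype).subgroupOf H = K' :=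
        Subgroup.comap_map_eq_self_of_injective H.subtype_injective K'
      have hrel1 : (K'.map H.subtype).relIndex H = p := by
        unfold Subgroup.relIndex
        rw [hsub, hK'i]
      have hle1 : N ≤ K'.map H.subtype := by
        intro g hg
        refine ⟨⟨g, hNH hg⟩, ?_, rfl⟩
        show QuotientGroup.mk' (N.subgroupOf H) ⟨g, hNH hg⟩ ∈ K
        have h1 : QuotientGroup.mk' (N.subgroupOf H) ⟨g, hNH hg⟩ = 1 := by
          rw [QuotientGroup.mk'_apply, QuotientGroup.eq_one_iff]
          exact hg
        rw [h1]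
        exact K.one_mem
      have hle2 : K'.map H.subtype ≤ H := Subgroup.map_subtype_le K'
      have hconj : ∀ g ∈ H, ∀ h ∈ K'.map H.subtype, g * h * g⁻¹ ∈ K'.map H.subtype := by
        rintro g hg _ ⟨h, hh, rfl⟩
        exact ⟨⟨g, hg⟩ * h * ⟨g, hg⟩⁻¹, hK'n.conj_mem h hh ⟨g, hg⟩, rfl⟩
      have hrel2 : N.relIndex (K'.map H.subtype) = p ^ j := by
        have h1 := Subgroup.relIndex_mul_relIndex N (K'.map H.subtype) H hle1 hle2
        rw [hrel1, hrel, pow_succ] at h1
        exact Nat.eq_of_mul_eq_mul_right hp.out.pos h1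
      have h2 := ih (k + 1) _ hle1 hrel2 (hstep k H _ hle1 hle2 hrel1 hconj hPr)
      rwa [show k + 1 + j = k + (j + 1) by omega] at h2
  have h1 := key s 0 ⊤ le_top (by rw [Subgroup.relIndex_top_right]; exact hidx) h0
  rwa [zero_add] at h1

end Pool.Agent.Y655.SEL.Tow
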